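import Pool.Agent.Helper13.TR.StB

/-!
# Project TR, module T1: the product theorem
-/

set_option autoImplicit false

namespace Pool.Agent.Helper14.TR

open Set Topology Pool.Agent.Helper13.TR

theorem hT1 (hT1W : StT1W) (hOPN : StOPN) : StT1 := by
  intro W Y _ _ _ _ _ hW hY s q hc w₀ r
  have hopen : IsOpen (pathComponent w₀) := IsOpen.pathComponent w₀
  have hclosed : IsClosed (pathComponent w₀) := IsClosed.pathComponent w₀
  haveI : PathConnectedSpace ↥(pathComponent w₀) :=
    isPathConnected_iff_pathConnectedSpace.mp isPathConnected_pathComponent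
  have hHM : HM ↥(pathComponent w₀) := hOPN W (pathComponent w₀) hopen hW
  have hemb : IsClosedEmbedding (fun w : ↥(pathComponent w₀) =>
      ((s.comp ⟨Subtype.val, continuous_subtype_val⟩) w,
        (q.comp ⟨Subtype.val, continuous_subtype_val⟩) w)) := by
    have h1 : IsClosedEmbedding (Subtype.val : ↥(pathComponent w₀) → W) :=
      hclosed.isClosedEmbedding_subtypeVal
    exact hc.comp h1
  obtain ⟨w, hw1, hw2⟩ := hT1W ↥(pathComponent w₀) Y hHM hY
    (s.comp ⟨Subtype.val, continuous_subtype_val⟩)
    (q.comp ⟨Subtype.val, continuous_subtype_val⟩) hemb ⟨w₀, mem_pathComponent_self w₀⟩ r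
  exact ⟨w.1, hw1, hw2⟩

end Pool.Agent.Helper14.TR
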